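import Mathlib

/-! `q`-contact structures, Reeb fields and the contact action on a smooth manifold. -/

set_option autoImplicit false

open scoped Manifold ContDiff

noncomputable section

namespace Pool.Agent.H946Z.Contact

/-- A 1-form on `M`: a linear functional on each tangent space. -/
abbrev OneForm (E : Type) [NormedAddCommGroup E] [NormedSpace ℝ E] (M : Type) [TopologicalSpace M]
    [ChartedSpace E M] : Type := (x : M) → TangentSpace 𝓘(ℝ, E) x →L[ℝ] ℝ

variable {E : Type} [NormedAddCommGroup E] [NormedSpace ℝ E] {M : Type} [TopologicalSpace M]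
  [ChartedSpace E M]

/-- The 1-form `a` read in the chart at `x₀` (its pull-back under the inverse of the chart). -/
def inChart (a : OneForm E M) (x₀ : M) (y : E) : E →L[ℝ] ℝ :=
  (a ((chartAt E x₀).symm y)).comp (mfderiv 𝓘(ℝ, E) 𝓘(ℝ, E) (chartAt E x₀).symm y)

/-- The 1-form `a` is smooth: it is smooth when read in the chart at any point. -/
def IsSmoothForm (a : OneForm E M) : Prop :=
  ∀ x₀ : M, ContDiffOn ℝ ∞ (inChart a x₀) (chartAt E x₀).target

/-- The exterior derivative `da` at `x`, on the tangent vectors `u`, `v` (computed in the chart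
at `x`, which is the chart that identifies the tangent space at `x` with `E`). -/
def extD (a : OneForm E M) (x : M) (u v : TangentSpace 𝓘(ℝ, E) x) : ℝ :=
  fderiv ℝ (inChart a x) (chartAt E x x) u v - fderiv ℝ (inChart a x) (chartAt E x x) v u

/-- A `q`-contact structure: smooth, pointwise linearly independent 1-forms `lam i` with a
splitting `TM = R ⊕ ξ`, where `ξ` is the common kernel of the `lam i`, each `d(lam i)` is
non-degenerate on `ξ`, and the kernel of each `d(lam i)` is `R`. -/
structure IsQContact {q : ℕ} (lam : Fin q → OneForm E M)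
    (R ξ : (x : M) → Submodule ℝ (TangentSpace 𝓘(ℝ, E) x)) : Prop where
  smooth : ∀ i, IsSmoothForm (lam i)
  indep : ∀ x, LinearIndependent ℝ fun i => lam i x
  compl : ∀ x, IsCompl (R x) (ξ x)
  mem_xi : ∀ x v, v ∈ ξ x ↔ ∀ i, lam i x v = 0
  nondeg : ∀ i x, ∀ u ∈ ξ x, (∀ v ∈ ξ x, extD (lam i) x u v = 0) → u = 0
  mem_R : ∀ i x u, u ∈ R x ↔ ∀ v, extD (lam i) x u v = 0

/-- The Reeb fields: sections `X i` of `R` with `lam j (X i) = δ_{ij}`. -/
def IsReeb {q : ℕ} (lam : Fin q → OneForm E M)
    (R : (x : M) → Submodule ℝ (TangentSpace 𝓘(ℝ, E) x))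
    (X : Fin q → (x : M) → TangentSpace 𝓘(ℝ, E) x) : Prop :=
  ∀ i x, X i x ∈ R x ∧ ∀ j, lam j x (X i x) = if i = j then 1 else 0

/-- `F` is the smooth action of `ℝ^q` generated by the flows of the fields `X i`. -/
structure IsActionOf {q : ℕ} (X : Fin q → (x : M) → TangentSpace 𝓘(ℝ, E) x)
    (F : (Fin q → ℝ) → M → M) : Prop where
  smooth : ContMDiff (𝓘(ℝ, Fin q → ℝ).prod 𝓘(ℝ, E)) 𝓘(ℝ, E) ∞
    fun p : (Fin q → ℝ) × M => F p.1 p.2
  zero : ∀ x, F 0 x = x
  add : ∀ s t x, F (s + t) x = F s (F t x)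
  flow : ∀ i x, IsMIntegralCurve (fun t : ℝ => F (Pi.single i t) x) (X i)

/-- The leaf through `x`: the orbit of `x`. -/
def leaf {q : ℕ} (F : (Fin q → ℝ) → M → M) (x : M) : Set M := Set.range fun t => F t x

end Pool.Agent.H946Z.Contact
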