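import Pool.Agent.H946Z.Contact.Torus

/-! A 2-contact structure on the 4-torus without compact leaves. -/

set_option autoImplicit false

open scoped Manifold ContDiff Topology
open Set Real

noncomputable section

namespace Pool.Agent.H946Z.Contact

theorem per_cos : Function.Periodic (fun x : ℝ => cos (2 * π * x)) 1 := fun x => by
  simp only [mul_add, mul_one, cos_add_two_pi]

theorem per_sin : Function.Periodic (fun x : ℝ => sin (2 * π * x)) 1 := fun x => by
  simp only [mul_add, mul_one, sin_add_two_pi]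

def co (p : Tor) : ℝ := per_cos.lift (p 3)

def si (p : Tor) : ℝ := per_sin.lift (p 3)

theorem co_pr (y : V4) : co (pr y) = cos (2 * π * y 3) := per_cos.lift_coe (y 3)

theorem si_pr (y : V4) : si (pr y) = sin (2 * π * y 3) := per_sin.lift_coe (y 3)

theorem co_si (p : Tor) : co p ^ 2 + si p ^ 2 = 1 := by
  rw [← pr_lft p, co_pr, si_pr]; exact cos_sq_add_sin_sq _

abbrev pj (i : Fin 4) : V4 →L[ℝ] ℝ := ContinuousLinearMap.proj i

variable (a b : ℝ)

def fA : V4 →L[ℝ] ℝ := pj 0 - a • pj 2

def fB : V4 →L[ℝ] ℝ := pj 1 - b • pj 2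

def fC (i : Fin 2) : V4 →L[ℝ] ℝ := (i : ℝ) • pj 2

/-- The forms `α` and `α + dt`. -/
def lamV (i : Fin 2) (p : Tor) : V4 →L[ℝ] ℝ := co p • fA a + si p • fB b + fC i

def lam (i : Fin 2) : OneForm V4 Tor := fun p => lamV a b i p

def beta (p : Tor) : V4 →L[ℝ] ℝ := (-si p) • fA a + co p • fB b

theorem lamV_apply (i : Fin 2) (p : Tor) (v : V4) :
    lamV a b i p v = co p * (v 0 - a * v 2) + si p * (v 1 - b * v 2) + (i : ℝ) * v 2 := by
  simp [lamV, fA, fB, fC]

theorem beta_apply (p : Tor) (v : V4) :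
    beta a b p v = -si p * (v 0 - a * v 2) + co p * (v 1 - b * v 2) := by
  simp [beta, fA, fB]

theorem inChart_lam (i : Fin 2) (x₀ : Tor) : inChart (lam a b i) x₀ =
    fun y => cos (2 * π * y 3) • fA a + sin (2 * π * y 3) • fB b + fC i := by
  funext y
  rw [inChart_Tor]
  simp only [lam, lamV, co_pr, si_pr]

theorem extD_lam (i : Fin 2) (x : Tor) (u v : V4) :
    extD (lam a b i) x u v = 2 * π * (u 3 * beta a b x v - v 3 * beta a b x u) := by
  unfold extD
  rw [inChart_lam]
  set y : V4 := chartAt V4 x x with hy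
  have hx : pr y = x := pr_chart (mem_chart_source V4 x)
  have h0 : HasFDerivAt (fun y : V4 => 2 * π * y 3) ((2 * π) • pj 3) y :=
    ((pj 3).hasFDerivAt (x := y)).const_mul (2 * π)
  have h1 := ((h0.cos.smul_const (fA a)).add (h0.sin.smul_const (fB b))).add_const (fC i)
  have h2 : fderiv ℝ (fun y : V4 => cos (2 * π * y 3) • fA a + sin (2 * π * y 3) • fB b + fC i) y
      = _ := h1.fderiv
  rw [h2, beta_apply, beta_apply, ← hx, co_pr, si_pr]
  simp [fA, fB]
  ring

def RR (p : Tor) : Submodule ℝ V4 := (pj 3).ker ⊓ (beta a b p).ker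

def xi (p : Tor) : Submodule ℝ V4 := (lamV a b 0 p).ker ⊓ (pj 2).ker

theorem mem_RR (p : Tor) (v : V4) : v ∈ RR a b p ↔
    v 3 = 0 ∧ -si p * (v 0 - a * v 2) + co p * (v 1 - b * v 2) = 0 := by
  rw [← beta_apply]; rfl

theorem mem_xi (p : Tor) (v : V4) : v ∈ xi a b p ↔ co p * v 0 + si p * v 1 = 0 ∧ v 2 = 0 := by
  have : v ∈ xi a b p ↔ lamV a b 0 p v = 0 ∧ v 2 = 0 := Iff.rfl
  rw [this, lamV_apply]
  constructor
  · rintro ⟨h1, h2⟩
    rw [h2] at h1
    exact ⟨by simpa using h1, h2⟩
  · rintro ⟨h1, h2⟩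
    exact ⟨by rw [h2]; simpa using h1, h2⟩

theorem isQContact : IsQContact (lam a b) (fun p => RR a b p) (fun p => xi a b p) where
  smooth i x₀ := by
    rw [inChart_lam]
    have h0 : ContDiff ℝ ∞ (fun y : V4 => 2 * π * y 3) := contDiff_const.mul (pj 3).contDiff
    exact (((h0.cos.smul contDiff_const).add (h0.sin.smul contDiff_const)).add
      contDiff_const).contDiffOn
  indep x := by
    change LinearIndependent ℝ fun i => lamV a b i x
    rw [Fintype.linearIndependent_iff]
    intro g hg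
    have h1 := congrArg (fun L : V4 →L[ℝ] ℝ => L ![a, b, 1, 0]) hg
    have h2 := congrArg (fun L : V4 →L[ℝ] ℝ => L ![co x, si x, 0, 0]) hg
    simp only [Fin.sum_univ_two, add_apply, smul_apply,
      lamV_apply, smul_eq_mul, zero_apply] at h1 h2
    simp at h1 h2
    have h3 := co_si x
    have h4 : co x * co x + si x * si x = 1 := by nlinarith
    rw [h4, h1] at h2
    intro i
    fin_cases i
    · simpa using h2
    · exact h1
  compl x := by
    have h3 := co_si x
    change IsCompl (RR a b x) (xi a b x)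
    constructor
    · rw [Submodule.disjoint_def]
      intro v hv hw
      rw [mem_RR] at hv
      rw [mem_xi] at hw
      obtain ⟨h1, h2⟩ := hv
      obtain ⟨h4, h5⟩ := hw
      rw [h5] at h2
      funext i
      fin_cases i
      · change v 0 = 0
        linear_combination (co x) * h4 - (si x) * h2 - (v 0) * h3
      · change v 1 = 0
        linear_combination (si x) * h4 + (co x) * h2 - (v 1) * h3
      · exact h5
      · exact h1
    · rw [codisjoint_iff, eq_top_iff]
      intro v _
      set k := co x * (v 0 - a * v 2) + si x * (v 1 - b * v 2) with hk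
      refine Submodule.mem_sup.2 ⟨![k * co x + a * v 2, k * si x + b * v 2, v 2, 0], ?_,
        v - ![k * co x + a * v 2, k * si x + b * v 2, v 2, 0], ?_, by abel⟩
      · rw [mem_RR]; simp; ring
      · rw [mem_xi]; simp
        linear_combination (-k) * h3 - hk
  mem_xi x v := by
    refine (mem_xi a b x v).trans ?_
    revert v
    intro (v : V4)
    change _ ↔ ∀ i, lamV a b i x v = 0
    rw [Fin.forall_fin_two, lamV_apply, lamV_apply]
    simp only [Fin.isValue, Fin.val_zero, Nat.cast_zero, zero_mul, add_zero, Fin.val_one,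
      Nat.cast_one, one_mul]
    constructor
    · rintro ⟨h1, h2⟩
      rw [h2]; constructor <;> linarith
    · rintro ⟨h1, h2⟩
      have h3 : (v : V4) 2 = 0 := by linarith
      rw [h3] at h1
      exact ⟨by linarith, h3⟩
  nondeg i x u hu h := by
    have h3 := co_si x
    have hu' := (mem_xi a b x u).1 hu
    have h1 := h (![0, 0, 0, 1] : V4) ((mem_xi a b x _).2 (by simp))
    have h2 := h (![-si x, co x, 0, 0] : V4) ((mem_xi a b x _).2 (by simp; ring))
    rw [extD_lam, beta_apply, beta_apply] at h1 h2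
    have hp := pi_pos
    simp [hu'.2, hp.ne'] at h1 h2
    have h5 : (u : V4) 3 = 0 := by
      rcases h2 with h2 | h2
      · exact h2
      · exfalso; nlinarith
    funext j
    fin_cases j
    · change (u : V4) 0 = 0
      linear_combination (co x) * hu'.1 + (si x) * h1 - ((u : V4) 0) * h3
    · change (u : V4) 1 = 0
      linear_combination (si x) * hu'.1 - (co x) * h1 - ((u : V4) 1) * h3
    · exact hu'.2
    · exact h5
  mem_R i x u := by
    have h3 := co_si x
    have hp := pi_pos
    refine (mem_RR a b x u).trans ?_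
    revert u
    intro (u : V4)
    change _ ↔ ∀ v : V4, extD (lam a b i) x u v = 0
    constructor
    · rintro ⟨h1, h2⟩ v
      rw [extD_lam, beta_apply a b x u, h1, h2]; ring
    · intro h
      have h1 := h ![0, 0, 0, 1]
      have h2 := h ![-si x, co x, 0, 0]
      rw [extD_lam, beta_apply, beta_apply] at h1 h2
      simp [hp.ne'] at h1 h2
      refine ⟨?_, by linarith⟩
      rcases h2 with h2 | h2
      · exact h2
      · exfalso; nlinarith

/-- The Reeb fields, in terms of the cosine and the sine of the angle. -/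
def rb (c s : ℝ) (i : Fin 2) : V4 := ![![c - a, s - b, -1, 0], ![a, b, 1, 0]] i

def reeb (i : Fin 2) (p : Tor) : TangentSpace 𝓘(ℝ, V4) p := rb a b (co p) (si p) i

theorem isReeb : IsReeb (lam a b) (fun p => RR a b p) (reeb a b) := by
  intro i x
  have h3 := co_si x
  refine ⟨(mem_RR a b x _).2 ?_, fun j => ?_⟩
  · fin_cases i <;> simp [reeb, rb]; ring
  · change lamV a b j x (rb a b (co x) (si x) i) = _
    rw [lamV_apply]
    fin_cases i <;> fin_cases j <;> simp [rb] <;> nlinarith

def mv (c s : ℝ) (t : Fin 2 → ℝ) : V4 := t 0 • rb a b c s 0 + t 1 • rb a b c s 1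

theorem mv_three (c s : ℝ) (t : Fin 2 → ℝ) : mv a b c s t 3 = 0 := by simp [mv, rb]

def flow (t : Fin 2 → ℝ) (p : Tor) : Tor :=
  fun i => p i + ((mv a b (co p) (si p) t i : ℝ) : AddCircle (1 : ℝ))

theorem flow_pr (t : Fin 2 → ℝ) (y : V4) :
    flow a b t (pr y) = pr (y + mv a b (cos (2 * π * y 3)) (sin (2 * π * y 3)) t) := by
  funext i
  simp only [flow, co_pr, si_pr, pr, Pi.add_apply, AddCircle.coe_add]

theorem flow_three (t : Fin 2 → ℝ) (p : Tor) : flow a b t p 3 = p 3 := by
  simp [flow, mv_three]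

theorem co_flow (t : Fin 2 → ℝ) (p : Tor) : co (flow a b t p) = co p := by
  simp only [co, flow_three]

theorem si_flow (t : Fin 2 → ℝ) (p : Tor) : si (flow a b t p) = si p := by
  simp only [si, flow_three]

theorem isActionOf : IsActionOf (reeb a b) (flow a b) where
  smooth := by
    rintro ⟨t₀, p₀⟩
    have hG : ContDiff ℝ ∞ fun z : (Fin 2 → ℝ) × V4 =>
        z.2 + mv a b (cos (2 * π * z.2 3)) (sin (2 * π * z.2 3)) z.1 := by
      refine contDiff_snd.add (contDiff_pi.2 fun i => ?_)
      fin_cases i <;> simp [mv, rb] <;> fun_prop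
    have hc : ContMDiffAt (𝓘(ℝ, Fin 2 → ℝ).prod 𝓘(ℝ, V4)) 𝓘(ℝ, (Fin 2 → ℝ) × V4) ∞
        (fun z : (Fin 2 → ℝ) × Tor => (z.1, chartAt V4 p₀ z.2)) (t₀, p₀) := by
      refine ContMDiffAt.prodMk_space contMDiffAt_fst ?_
      have h1 : ContMDiffAt 𝓘(ℝ, V4) 𝓘(ℝ, V4) ∞ (chartAt V4 p₀) p₀ :=
        (contMDiffOn_chart (x := p₀)).contMDiffAt
          ((chartAt V4 p₀).open_source.mem_nhds (mem_chart_source V4 p₀))
      exact h1.comp (t₀, p₀) contMDiffAt_snd
    have h2 := (contMDiff_pr _).comp (t₀, p₀) ((hG.contMDiff _).comp (t₀, p₀) hc)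
    refine h2.congr_of_eventuallyEq ?_
    have h3 : ∀ᶠ z : (Fin 2 → ℝ) × Tor in 𝓝 (t₀, p₀), z.2 ∈ (chartAt V4 p₀).source :=
      continuous_snd.continuousAt.preimage_mem_nhds
        ((chartAt V4 p₀).open_source.mem_nhds (mem_chart_source V4 p₀))
    filter_upwards [h3] with z hz
    have h4 := flow_pr a b z.1 (chartAt V4 p₀ z.2)
    rw [pr_chart hz] at h4
    exact h4
  zero x := by
    funext i; simp [flow, mv]
  add s t x := by
    funext i
    simp only [flow]
    change _ = (flow a b t x) i + ((mv a b (co (flow a b t x)) (si (flow a b t x)) s i : ℝ) :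
      AddCircle (1 : ℝ))
    rw [co_flow, si_flow]
    simp only [flow]
    rw [add_assoc, ← AddCircle.coe_add]
    congr 2
    simp only [mv, Pi.add_apply, Pi.smul_apply, smul_eq_mul]; ring
  flow i x := by
    intro t
    have h0 : (fun t : ℝ => flow a b (Pi.single i t) x) =
        pr ∘ fun t : ℝ => lft x + t • rb a b (co x) (si x) i := by
      funext t
      have h4 := flow_pr a b (Pi.single i t) (lft x)
      rw [← co_pr, ← si_pr, pr_lft] at h4
      rw [h4]
      fin_cases i <;> simp [mv]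
    have h1 : HasDerivAt (fun t : ℝ => lft x + t • rb a b (co x) (si x) i)
        (rb a b (co x) (si x) i) t := by
      simpa using ((hasDerivAt_id t).smul_const (rb a b (co x) (si x) i)).const_add (lft x)
    have h2 := (hasMFDerivAt_pr _).comp t h1.hasFDerivAt.hasMFDerivAt
    have h3 : reeb a b i (flow a b (Pi.single i t) x) = rb a b (co x) (si x) i := by
      simp only [reeb, co_flow, si_flow]
    simp only [h3]
    rw [h0]
    exact h2

theorem no_closed {S : Set (AddCircle (1 : ℝ))} (hS : IsClosed S) (hc : S.Countable)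
    (y : AddCircle (1 : ℝ)) {g : ℝ} (hg : Irrational g)
    (h : ∀ n : ℤ, y + n • ((g : ℝ) : AddCircle (1 : ℝ)) ∈ S) : False := by
  have h1 : DenseRange (fun n : ℤ => n • ((g : ℝ) : AddCircle (1 : ℝ))) :=
    AddCircle.denseRange_zsmul_coe_iff.2 (by simpa using hg)
  have h2 : DenseRange (fun n : ℤ => y + n • ((g : ℝ) : AddCircle (1 : ℝ))) :=
    (Homeomorph.addLeft y).surjective.denseRange.comp h1 (Homeomorph.addLeft y).continuous
  have h3 : S = univ := by
    rw [← hS.closure_eq]
    exact (h2.mono (by rintro _ ⟨n, rfl⟩; exact h n)).closure_eq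
  rw [h3, countable_univ_iff] at hc
  have h4 : Countable (Ico (0 : ℝ) (0 + 1)) := (AddCircle.equivIco (1 : ℝ) 0).symm.countable_iff.2 hc
  have h5 : (Ico (0 : ℝ) (0 + 1)).Countable := h4
  have h6 := Cardinal.mk_Ico_real (show (0 : ℝ) < 0 + 1 by norm_num)
  rw [← Cardinal.le_aleph0_iff_set_countable, h6] at h5
  exact absurd h5 (not_le.2 Cardinal.aleph0_lt_continuum)

theorem coe_zero_iff (x : ℝ) : ((x : ℝ) : AddCircle (1 : ℝ)) = 0 ↔ ∃ n : ℤ, (n : ℝ) = x := by
  rw [AddCircle.coe_eq_zero_iff]; simp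

/-- The slice argument: fix the coordinates `2` and `i`, and look at the coordinate `j`. -/
theorem slice {O : Set Tor} (hO : IsCompact O) (p : Tor) (i j : Fin 4) (c s a' b' : ℝ)
    (hc : c ≠ 0) (P : ℝ → ℝ → Tor) (hP : O = range fun z : ℝ × ℝ => P z.1 z.2)
    (h2 : ∀ u w, P u w 2 = p 2 + ((w : ℝ) : AddCircle (1 : ℝ)))
    (hi : ∀ u w, P u w i = p i + ((u * c + w * a' : ℝ) : AddCircle (1 : ℝ)))
    (hj : ∀ u w, P u w j = p j + ((u * s + w * b' : ℝ) : AddCircle (1 : ℝ)))
    (hirr : Irrational (s / c) ∨ Irrational (b' - a' * (s / c))) : False := by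
  have hcont : ∀ k : Fin 4, Continuous fun q : Tor => q k := fun k => continuous_apply k
  have hZ : IsCompact (O ∩ {q | q 2 = p 2 ∧ q i = p i}) :=
    hO.inter_right ((isClosed_eq (hcont 2) continuous_const).inter
      (isClosed_eq (hcont i) continuous_const))
  have hS := (hZ.image (hcont j)).isClosed
  have hmem : ∀ m k : ℤ, p j + ((m * (s / c) + k * (b' - a' * (s / c)) : ℝ) : AddCircle (1 : ℝ)) ∈
      (fun q : Tor => q j) '' (O ∩ {q | q 2 = p 2 ∧ q i = p i}) := by
    intro m k
    refine ⟨P ((m - k * a') / c) k, ⟨by rw [hP]; exact ⟨(_, _), rfl⟩, ?_, ?_⟩, ?_⟩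
    · rw [h2, (coe_zero_iff _).2 ⟨k, rfl⟩, add_zero]
    · rw [hi, (coe_zero_iff _).2 ⟨m, by field_simp; ring⟩, add_zero]
    · simp only
      rw [hj]; congr 2; field_simp; ring
  have hcount : ((fun q : Tor => q j) '' (O ∩ {q | q 2 = p 2 ∧ q i = p i})).Countable := by
    refine (countable_range fun z : ℤ × ℤ => p j +
      ((z.1 * (s / c) + z.2 * (b' - a' * (s / c)) : ℝ) : AddCircle (1 : ℝ))).mono ?_
    rintro _ ⟨q, ⟨hq, hq2, hqi⟩, rfl⟩
    rw [hP] at hq
    obtain ⟨⟨u, w⟩, rfl⟩ := hq
    simp only at hq2 hqi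
    rw [h2, add_eq_left, coe_zero_iff] at hq2
    rw [hi, add_eq_left, coe_zero_iff] at hqi
    obtain ⟨k, rfl⟩ := hq2
    obtain ⟨m, hm⟩ := hqi
    refine ⟨(m, k), ?_⟩
    simp only
    rw [hj, hm]; congr 2; field_simp; ring
  rcases hirr with h | h
  · refine no_closed hS hcount (p j) h fun n => ?_
    have := hmem n 0
    rw [← AddCircle.coe_zsmul]
    simpa using this
  · refine no_closed hS hcount (p j) h fun n => ?_
    have := hmem 0 n
    rw [← AddCircle.coe_zsmul]
    simpa using this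

theorem not_compact (ha : Irrational a) (hb : ∀ r : ℚ, Irrational (b - a * r)) (p : Tor) :
    ¬ IsCompact (leaf (flow a b) p) := by
  intro hO
  let P : ℝ → ℝ → Tor := fun u w => flow a b ![u, u + w] p
  have hP : leaf (flow a b) p = range fun z : ℝ × ℝ => P z.1 z.2 := by
    ext q
    constructor
    · rintro ⟨t, rfl⟩
      refine ⟨(t 0, t 1 - t 0), ?_⟩
      simp only [P]
      congr 1
      funext i; fin_cases i <;> simp
    · rintro ⟨z, rfl⟩
      exact ⟨_, rfl⟩
  have h2 : ∀ u w, P u w 2 = p 2 + ((w : ℝ) : AddCircle (1 : ℝ)) := fun u w => by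
    simp only [P, flow]; congr 2; simp [mv, rb]
  have h0 : ∀ u w, P u w 0 = p 0 + ((u * co p + w * a : ℝ) : AddCircle (1 : ℝ)) := fun u w => by
    simp only [P, flow]; congr 2; simp [mv, rb]; ring
  have h1 : ∀ u w, P u w 1 = p 1 + ((u * si p + w * b : ℝ) : AddCircle (1 : ℝ)) := fun u w => by
    simp only [P, flow]; congr 2; simp [mv, rb]; ring
  by_cases hc : co p = 0
  · have hs : si p ≠ 0 := by
      intro hs
      have := co_si p
      rw [hc, hs] at this; norm_num at this
    refine slice hO p 1 0 (si p) (co p) b a hs P hP h2 h1 h0 (Or.inr ?_)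
    simpa [hc] using ha
  · refine slice hO p 0 1 (co p) (si p) a b hc P hP h2 h0 h1 ?_
    by_cases h : Irrational (si p / co p)
    · exact Or.inl h
    · right
      obtain ⟨r, hr⟩ : si p / co p ∈ range ((↑) : ℚ → ℝ) := not_not.1 h
      rw [← hr]; exact hb r

theorem exists_ab : ∃ a b : ℝ, Irrational a ∧ ∀ r : ℚ, Irrational (b - a * r) := by
  have h : (range fun z : ℚ × ℚ => (z.1 : ℝ) + √2 * z.2).Countable := countable_range _
  have h2 : ∃ b, b ∉ range fun z : ℚ × ℚ => (z.1 : ℝ) + √2 * z.2 := by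
    by_contra hc
    push Not at hc
    rw [eq_univ_of_forall hc] at h
    exact Cardinal.not_countable_real h
  obtain ⟨b, hb⟩ := h2
  refine ⟨√2, b, irrational_sqrt_two, fun r => ?_⟩
  rintro ⟨q, hq⟩
  exact hb ⟨(q, r), by simp only; linarith⟩

end Pool.Agent.H946Z.Contact
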