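import Pool.Agent.H946Z.Contact.Defs

/-! The four-dimensional torus as a smooth manifold. -/

set_option autoImplicit false

open scoped Manifold ContDiff Topology
open Set

noncomputable section

namespace Pool.Agent.H946Z.Contact

abbrev V4 : Type := Fin 4 → ℝ

/-- The torus `ℝ⁴/ℤ⁴`. -/
def Tor : Type := Fin 4 → AddCircle (1 : ℝ)

instance : TopologicalSpace Tor := inferInstanceAs (TopologicalSpace (Fin 4 → AddCircle (1 : ℝ)))
instance : CompactSpace Tor := inferInstanceAs (CompactSpace (Fin 4 → AddCircle (1 : ℝ)))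
instance : T2Space Tor := inferInstanceAs (T2Space (Fin 4 → AddCircle (1 : ℝ)))
instance : ConnectedSpace Tor := inferInstanceAs (ConnectedSpace (Fin 4 → AddCircle (1 : ℝ)))
instance : SecondCountableTopology Tor :=
  inferInstanceAs (SecondCountableTopology (Fin 4 → AddCircle (1 : ℝ)))

def pr (x : V4) : Tor := fun i => ((x i : ℝ) : AddCircle (1 : ℝ))

def cube (a : V4) : OpenPartialHomeomorph V4 Tor :=
  OpenPartialHomeomorph.pi fun i : Fin 4 =>
    AddCircle.openPartialHomeomorphCoe (1 : ℝ) (a i - 1 / 2)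

def lft (p : Tor) : V4 := fun i => (AddCircle.equivIco (1 : ℝ) 0 (p i) : ℝ)

theorem pr_lft (p : Tor) : pr (lft p) = p := by
  funext i
  exact (AddCircle.equivIco (1 : ℝ) 0).symm_apply_apply (p i)

theorem cube_apply (a x : V4) : cube a x = pr x := rfl

theorem self_mem_cube (a : V4) : a ∈ (cube a).source := by
  intro i _
  change a i ∈ Ioo (a i - 1 / 2) (a i - 1 / 2 + 1)
  constructor <;> linarith

instance : ChartedSpace V4 Tor where
  atlas := {e | ∃ a : V4, e = (cube a).symm}
  chartAt p := (cube (lft p)).symm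
  mem_chart_source p := by
    have := (cube (lft p)).map_source (self_mem_cube _)
    rw [cube_apply, pr_lft] at this
    exact this
  chart_mem_atlas p := ⟨_, rfl⟩

theorem chartAt_Tor_symm (p : Tor) : ((chartAt V4 p).symm : V4 → Tor) = pr := rfl

theorem pr_chart {p₀ p : Tor} (hp : p ∈ (chartAt V4 p₀).source) : pr (chartAt V4 p₀ p) = p :=
  (chartAt V4 p₀).left_inv hp

theorem pr_add {z x : V4} (hzx : pr z = pr x) (y : V4) : pr (y + (z - x)) = pr y := by
  funext i
  have h1 : ((z i : ℝ) : AddCircle (1 : ℝ)) = ((x i : ℝ) : AddCircle (1 : ℝ)) := congrFun hzx i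
  change (((y + (z - x)) i : ℝ) : AddCircle (1 : ℝ)) = ((y i : ℝ) : AddCircle (1 : ℝ))
  have : (y + (z - x)) i = y i + (z i - x i) := rfl
  rw [this, AddCircle.coe_add, AddCircle.coe_sub, h1, sub_self, add_zero]

theorem chart_comp_pr (a x : V4) (hx : pr x ∈ (cube a).target) :
    ∃ n : V4, ∀ᶠ y in 𝓝 x, (cube a).symm (pr y) = y + n := by
  set z : V4 := (cube a).symm (pr x) with hz
  have hzs : z ∈ (cube a).source := (cube a).map_target hx
  have hzx : pr z = pr x := by
    rw [← cube_apply a z]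
    exact (cube a).right_inv hx
  refine ⟨z - x, ?_⟩
  have hcont : Continuous fun y : V4 => y + (z - x) := continuous_id.add continuous_const
  have hmem : (fun y : V4 => y + (z - x)) x ∈ (cube a).source := by
    have : x + (z - x) = z := by abel
    change x + (z - x) ∈ (cube a).source
    rw [this]
    exact hzs
  have hev : ∀ᶠ y in 𝓝 x, y + (z - x) ∈ (cube a).source :=
    hcont.continuousAt.preimage_mem_nhds ((cube a).open_source.mem_nhds hmem)
  filter_upwards [hev] with y hy
  rw [← pr_add hzx y, ← cube_apply a]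
  exact (cube a).left_inv hy

instance : IsManifold 𝓘(ℝ, V4) ∞ Tor := by
  apply isManifold_of_contDiffOn
  rintro e e' ⟨a, rfl⟩ ⟨b, rfl⟩
  intro x hx
  have hx1 : x ∈ ((cube a).symm.symm ≫ₕ (cube b).symm).source := hx.1
  have hx2 : pr x ∈ (cube b).target := hx1.2
  obtain ⟨n, hn⟩ := chart_comp_pr b x hx2
  have h2 : ContDiffAt ℝ ∞ (fun y : V4 => y + n) x := contDiffAt_id.add contDiffAt_const
  have h3 : ContDiffAt ℝ ∞ (fun y : V4 => (cube b).symm (pr y)) x :=
    h2.congr_of_eventuallyEq hn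
  exact h3.contDiffWithinAt

theorem contMDiff_pr : ContMDiff 𝓘(ℝ, V4) 𝓘(ℝ, V4) ∞ pr := by
  intro x
  have hmem : (cube x).symm ∈ atlas V4 Tor := ⟨x, rfl⟩
  have hmax : (cube x).symm ∈ IsManifold.maximalAtlas 𝓘(ℝ, V4) ∞ Tor :=
    IsManifold.subset_maximalAtlas hmem
  have h1 := contMDiffOn_symm_of_mem_maximalAtlas hmax
  exact h1.contMDiffAt ((cube x).open_source.mem_nhds (self_mem_cube x))

theorem hasMFDerivAt_pr (x : V4) :
    HasMFDerivAt 𝓘(ℝ, V4) 𝓘(ℝ, V4) pr x (ContinuousLinearMap.id ℝ V4 : V4 →L[ℝ] V4) := by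
  refine ⟨(contMDiff_pr x).continuousAt, ?_⟩
  obtain ⟨n, hn⟩ := chart_comp_pr (lft (pr x)) x (mem_chart_source V4 (pr x))
  have h1 : HasFDerivAt (fun y : V4 => y + n) (ContinuousLinearMap.id ℝ V4) x :=
    (hasFDerivAt_id x).add_const n
  have h2 : HasFDerivAt (fun y : V4 => (cube (lft (pr x))).symm (pr y))
      (ContinuousLinearMap.id ℝ V4) x := h1.congr_of_eventuallyEq hn
  exact h2.hasFDerivWithinAt

theorem inChart_Tor (a : OneForm V4 Tor) (x₀ : Tor) (y : V4) :
    inChart a x₀ y = (a (pr y) : V4 →L[ℝ] ℝ) := by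
  unfold inChart
  rw [chartAt_Tor_symm, (hasMFDerivAt_pr y).mfderiv]
  rfl

end Pool.Agent.H946Z.Contact
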